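import Pool.Agent.W601.RP.Stm2

set_option autoImplicit false

namespace Pool.Agent.W61.RP

open Pool.Agent.W601.RP MeasureTheory

noncomputable section

/-- The fair coin. -/
def co : Measure Bool := (PMF.uniformOfFintype Bool).toMeasure

instance : IsProbabilityMeasure co := by unfold co; infer_instance

theorem co_sing (a : Bool) : co {a} = 2⁻¹ := by
  unfold co
  rw [PMF.toMeasure_apply_singleton _ _ (measurableSet_singleton a), PMF.uniformOfFintype_apply]
  simp

/-- The product measure. -/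
def mm : Measure (ℕ → Bool) := Measure.infinitePi (fun _ : ℕ => co)

instance : IsProbabilityMeasure mm := by unfold mm; infer_instance

theorem cyl (n : ℕ) (a : ℕ → Bool) :
    mm {b : ℕ → Bool | ∀ i, i < n → b i = a i} = (2⁻¹ : ENNReal) ^ n := by
  have h : {b : ℕ → Bool | ∀ i, i < n → b i = a i} =
      Set.pi (↑(Finset.range n)) (fun i => {a i}) := by
    ext b
    simp [Set.mem_pi]
  unfold mm
  rw [h, Measure.infinitePi_pi _ (fun i _ => measurableSet_singleton _)]
  simp [co_sing]

/-- The parities coded by a list. -/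
def pa (s : List ℕ) (i : ℕ) : Bool := decide (s.getD i 0 % 2 = 1)

/-- The bad set. -/
def bad (t : ℕ) : Set (ℕ → Bool) :=
  {b | IsNode t ∧ ∃ s ∈ (lt t).2, ∀ i, i < nL (lt t) → b i = pa s i}

theorem bad_le (t : ℕ) : mm (bad t) ≤ ENNReal.ofReal (nu t) := by
  by_cases h : IsNode t
  · have h1 : bad t ⊆ ⋃ s ∈ (lt t).2.toFinset,
        {b : ℕ → Bool | ∀ i, i < nL (lt t) → b i = pa s i} := by
      rintro b ⟨_, s, hs, hb⟩
      simp only [Set.mem_iUnion, List.mem_toFinset]
      exact ⟨s, hs, hb⟩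
    refine (measure_mono h1).trans ((measure_biUnion_finset_le _ _).trans ?_)
    simp only [cyl]
    rw [Finset.sum_const, nsmul_eq_mul]
    unfold nu
    rw [if_pos h, ENNReal.ofReal_mul (Nat.cast_nonneg _), ENNReal.ofReal_natCast,
      ENNReal.ofReal_pow (by norm_num)]
    have h2 : ENNReal.ofReal (1 / 2) = 2⁻¹ := by
      rw [one_div, ENNReal.ofReal_inv_of_pos (by norm_num)]
      norm_num
    rw [h2]
    gcongr
    exact List.toFinset_card_le _
  · have h1 : bad t = ∅ := by
      ext b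
      simp [bad, h]
    rw [h1]
    simp

theorem nu_nonneg (t : ℕ) : 0 ≤ nu t := by
  unfold nu
  split_ifs
  · positivity
  · exact le_rfl

theorem av : S_NODE → S_AV := by
  intro _ W hs hlt
  have h1 : mm (⋃ t ∈ W, bad t) < 1 := by
    have h2 : (⋃ t ∈ W, bad t) ⊆ ⋃ t : ℕ, {b | t ∈ W ∧ b ∈ bad t} := by
      intro b hb
      simp only [Set.mem_iUnion] at hb
      obtain ⟨t, ht, hb⟩ := hb
      exact Set.mem_iUnion.2 ⟨t, ht, hb⟩
    have h3 : ∀ t : ℕ, mm {b | t ∈ W ∧ b ∈ bad t} ≤ ENNReal.ofReal (W.indicator nu t) := by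
      intro t
      by_cases ht : t ∈ W
      · rw [Set.indicator_of_mem ht]
        refine (measure_mono ?_).trans (bad_le t)
        rintro b ⟨_, hb⟩
        exact hb
      · have h4 : {b : ℕ → Bool | t ∈ W ∧ b ∈ bad t} = ∅ := by
          ext b
          simp [ht]
        rw [h4]
        simp
    have h5 : ∀ t, 0 ≤ W.indicator nu t := fun t =>
      Set.indicator_nonneg (fun t _ => nu_nonneg t) t
    calc mm (⋃ t ∈ W, bad t) ≤ mm (⋃ t : ℕ, {b | t ∈ W ∧ b ∈ bad t}) := measure_mono h2
      _ ≤ ∑' t : ℕ, mm {b | t ∈ W ∧ b ∈ bad t} := measure_iUnion_le _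
      _ ≤ ∑' t : ℕ, ENNReal.ofReal (W.indicator nu t) := ENNReal.tsum_le_tsum h3
      _ = ENNReal.ofReal (∑' t : ℕ, W.indicator nu t) := (ENNReal.ofReal_tsum_of_nonneg h5 hs).symm
      _ < 1 := by
        rw [← ENNReal.ofReal_one]
        exact (ENNReal.ofReal_lt_ofReal_iff one_pos).2 hlt
  have h2 : (⋃ t ∈ W, bad t) ≠ Set.univ := by
    intro h
    rw [h, measure_univ] at h1
    exact lt_irrefl _ h1
  obtain ⟨b, hb⟩ := (Set.ne_univ_iff_exists_notMem _).1 h2
  refine ⟨fun i => if b i then 1 else 0, fun i => ?_, ?_⟩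
  · dsimp only
    split_ifs <;> norm_num
  · intro u hu q hq
    unfold x
    rw [if_neg]
    rintro ⟨hnode, hmem⟩
    apply hb
    simp only [Set.mem_iUnion]
    refine ⟨u, hu, hnode, _, hmem, fun i hi => ?_⟩
    have h3 : (pre q (nL (lt u))).getD i 0 = q i := by
      unfold pre
      rw [List.getD_eq_getElem _ _ (by simpa using hi)]
      simp
    unfold pa
    rw [h3, hq i]
    cases hbi : b i <;> simp [hbi]

end

end Pool.Agent.W61.RP
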